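import Mathlib

/-!
# MP_e4445d_al, Q1: the answer is YES

For every Abelian group `G` with a norm, the topological weight of the metric bidual `G''`
is at least the topological weight of the metric dual `G'`.
-/

namespace Pool.Agent.Results.MP_e4445d_al.BidualWeight

open Cardinal TopologicalSpace Set

universe u

/-- The weight of a topological space: the least cardinality of a base. -/
noncomputable def weight (X : Type u) [TopologicalSpace X] : Cardinal.{u} :=
  sInf {c : Cardinal.{u} | ∃ B : Set (Set X), IsTopologicalBasis B ∧ #B = c}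

/-- The group `G'` of all continuous homomorphisms from the normed Abelian group `G` to
`𝕋 = ℝ/ℤ` (under pointwise addition).  The norm of `𝕋` is the distance to `0`. -/
def Dual (G : Type u) [NormedAddCommGroup G] : Type u :=
  {χ : G →+ UnitAddCircle // Continuous χ}

section basic

variable {G : Type u} [NormedAddCommGroup G]

/-- the underlying subgroup -/
def sub (G : Type u) [NormedAddCommGroup G] : AddSubgroup (G →+ UnitAddCircle) where
  carrier := {χ | Continuous χ}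
  zero_mem' := continuous_const
  add_mem' {a b} ha hb := by
    have : Continuous fun x => a x + b x := ha.add hb
    exact this
  neg_mem' {a} ha := by
    have : Continuous fun x => - a x := ha.neg
    exact this

instance : AddCommGroup (Dual G) := inferInstanceAs (AddCommGroup (sub G))

/-- evaluation of a character -/
instance : CoeFun (Dual G) (fun _ => G → UnitAddCircle) := ⟨fun χ => χ.1⟩

lemma zero_apply (x : G) : (0 : Dual G) x = 0 := rfl
lemma add_apply (a b : Dual G) (x : G) : (a + b) x = a x + b x := rfl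
lemma neg_apply (a : Dual G) (x : G) : (-a) x = - a x := rfl
lemma sub_apply (a b : Dual G) (x : G) : (a - b) x = a x - b x := by
  rw [sub_eq_add_neg, add_apply, neg_apply, sub_eq_add_neg]
lemma nsmul_apply (n : ℕ) (a : Dual G) (x : G) : (n • a) x = n • a x := by
  induction n with
  | zero => rw [zero_nsmul, zero_nsmul]; rfl
  | succ m ih => rw [succ_nsmul, succ_nsmul, add_apply, ih]
lemma map_add' (a : Dual G) (x y : G) : a (x + y) = a x + a y := a.1.map_add x y
lemma map_nsmul' (a : Dual G) (n : ℕ) (x : G) : a (n • x) = n • a x := a.1.map_nsmul n x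
lemma map_zero' (a : Dual G) : a 0 = 0 := a.1.map_zero

lemma ext' {a b : Dual G} (h : ∀ x, a x = b x) : a = b :=
  Subtype.ext (AddMonoidHom.ext h)

/-- The dual norm `p'`. -/
noncomputable def dnorm (χ : Dual G) : ℝ :=
  sInf {M : ℝ | 0 < M ∧ ∀ x : G, ‖χ x‖ ≤ M * ‖x‖}

lemma norm_nsmul_eq {t : UnitAddCircle} {n : ℕ} (h : n * ‖t‖ ≤ 1 / 2) : ‖n • t‖ = n * ‖t‖ := by
  obtain ⟨r, hr, hr'⟩ : ∃ r : ℝ, (r : UnitAddCircle) = t ∧ |r| = ‖t‖ := by
    induction t using QuotientAddGroup.induction_on with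
    | H r =>
      refine ⟨r - round r, ?_, ?_⟩
      · have : ((r - round r : ℝ) : UnitAddCircle) = (r : UnitAddCircle) - ((round r : ℝ) : UnitAddCircle) :=
          AddCircle.coe_sub _ _ _
        rw [this]
        have h2 : ((round r : ℝ) : UnitAddCircle) = 0 := by
          rw [AddCircle.coe_eq_zero_iff]
          exact ⟨round r, by simp⟩
        rw [h2, sub_zero]
      · exact (UnitAddCircle.norm_eq).symm
  rw [← hr'] at h ⊢
  rw [← hr, ← AddCircle.coe_nsmul, nsmul_eq_mul]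
  rw [(AddCircle.norm_coe_eq_abs_iff 1 one_ne_zero).2 ?_]
  · rw [abs_mul, Nat.abs_cast]
  · rw [abs_mul, Nat.abs_cast]
    simpa using h

lemma norm_le_half (t : UnitAddCircle) : ‖t‖ ≤ 1 / 2 := by
  simpa using AddCircle.norm_le_half_period 1 (x := t) one_ne_zero

/-- if all multiples up to `k` are small then `t` is very small -/
lemma mul_norm_lt {t : UnitAddCircle} {k : ℕ} (h : ∀ j ≤ k, ‖j • t‖ < 1 / 4) :
    k * ‖t‖ < 1 / 4 := by
  induction k with
  | zero => simp
  | succ k ih =>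
    have h1 := ih (fun j hj => h j (hj.trans (Nat.le_succ k)))
    have h2 : ‖t‖ ≤ 1 / 4 := by
      have := h 1 (Nat.succ_le_succ (Nat.zero_le k))
      rw [one_nsmul] at this
      exact this.le
    have h3 : ((k + 1 : ℕ) : ℝ) * ‖t‖ ≤ 1 / 2 := by
      push_cast
      linarith
    rw [← norm_nsmul_eq h3]
    exact h _ le_rfl

/-- key lemma -/
lemma bound_of_ball {χ : G →+ UnitAddCircle} {r : ℝ} (hr : 0 < r)
    (h : ∀ x : G, ‖x‖ < r → ‖χ x‖ < 1 / 4) (x : G) : ‖χ x‖ ≤ 1 / (2 * r) * ‖x‖ := by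
  by_cases hx : ‖x‖ < r
  · by_cases hx0 : x = 0
    · subst hx0; simp
    have hxp : 0 < ‖x‖ := norm_pos_iff.2 hx0
    -- largest k with k ‖x‖ < r
    obtain ⟨k, hk1, hk2⟩ : ∃ k : ℕ, (k : ℝ) * ‖x‖ < r ∧ r ≤ (k + 1) * ‖x‖ := by
      have hex : ∃ n : ℕ, r ≤ n * ‖x‖ := by
        obtain ⟨n, hn⟩ := exists_nat_ge (r / ‖x‖)
        exact ⟨n, (div_le_iff₀ hxp).1 hn⟩
      classical
      set m := Nat.find hex with hm
      have hm1 : r ≤ m * ‖x‖ := Nat.find_spec hex
      have hm0 : m ≠ 0 := by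
        intro h0
        rw [h0] at hm1
        simp at hm1
        linarith
      obtain ⟨k, hk⟩ := Nat.exists_eq_succ_of_ne_zero hm0
      refine ⟨k, ?_, ?_⟩
      · have := Nat.find_min hex (m := k) (by rw [← hm, hk]; exact Nat.lt_succ_self k)
        exact not_le.1 this
      · rw [hk] at hm1
        push_cast at hm1
        exact hm1
    have hk0 : 1 ≤ k := by
      by_contra h0
      have : k = 0 := by omega
      subst this
      simp at hk2
      linarith
    have h1 : (k : ℝ) * ‖χ x‖ < 1 / 4 := by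
      apply mul_norm_lt
      intro j hj
      rw [← map_nsmul]
      apply h
      calc ‖j • x‖ ≤ j * ‖x‖ := norm_nsmul_le
        _ ≤ k * ‖x‖ := by gcongr
        _ < r := hk1
    have hk0' : (1 : ℝ) ≤ k := by exact_mod_cast hk0
    have h2 : r ≤ 2 * k * ‖x‖ := by nlinarith
    rw [div_mul_eq_mul_div, one_mul, le_div_iff₀ (by positivity)]
    have h3 : ‖χ x‖ * (2 * r) ≤ ‖χ x‖ * (2 * (2 * k * ‖x‖)) := by gcongr
    have h4 : ‖χ x‖ * (2 * (2 * k * ‖x‖)) = 4 * (k * ‖χ x‖) * ‖x‖ := by ring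
    rw [h4] at h3
    nlinarith
  · push Not at hx
    rw [div_mul_eq_mul_div, one_mul, le_div_iff₀ (by positivity)]
    have := norm_le_half (χ x)
    nlinarith [norm_nonneg (χ x)]

lemma dnorm_set_nonempty (χ : Dual G) : {M : ℝ | 0 < M ∧ ∀ x : G, ‖χ x‖ ≤ M * ‖x‖}.Nonempty := by
  have hc : ContinuousAt χ.1 0 := χ.2.continuousAt
  obtain ⟨δ, hδ, h⟩ := Metric.continuousAt_iff.1 hc (1 / 4) (by norm_num)
  refine ⟨1 / (2 * δ), by positivity, bound_of_ball hδ fun x hx => ?_⟩
  have := h (x := x) (by simpa using hx)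
  simpa using this

lemma dnorm_bddBelow (χ : Dual G) : BddBelow {M : ℝ | 0 < M ∧ ∀ x : G, ‖χ x‖ ≤ M * ‖x‖} :=
  ⟨0, fun _ h => h.1.le⟩

lemma dnorm_nonneg (χ : Dual G) : 0 ≤ dnorm χ := Real.sInf_nonneg fun _ h => h.1.le

lemma le_dnorm (χ : Dual G) (x : G) : ‖χ x‖ ≤ dnorm χ * ‖x‖ := by
  rcases (norm_nonneg x).eq_or_lt with h | h
  · have hx : x = 0 := norm_eq_zero.1 h.symm
    subst hx
    rw [map_zero']; simp
  · rw [← div_le_iff₀ h]
    refine le_csInf (dnorm_set_nonempty χ) ?_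
    rintro M ⟨_, hM⟩
    rw [div_le_iff₀ h]
    exact hM x

lemma dnorm_le {χ : Dual G} {M : ℝ} (hM : 0 ≤ M) (h : ∀ x, ‖χ x‖ ≤ M * ‖x‖) : dnorm χ ≤ M := by
  refine le_of_forall_pos_le_add fun ε hε => ?_
  refine csInf_le (dnorm_bddBelow χ) ⟨by positivity, fun x => (h x).trans ?_⟩
  gcongr
  linarith

noncomputable instance : NormedAddCommGroup (Dual G) :=
  AddGroupNorm.toNormedAddCommGroup
    { toFun := dnorm
      map_zero' := le_antisymm (dnorm_le le_rfl fun x => by rw [zero_apply]; simp) (dnorm_nonneg _)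
      add_le' := fun a b => dnorm_le (add_nonneg (dnorm_nonneg _) (dnorm_nonneg _)) fun x => by
        rw [add_apply, add_mul]
        exact (norm_add_le _ _).trans (add_le_add (le_dnorm a x) (le_dnorm b x))
      neg' := fun a => by
        apply le_antisymm
        · refine dnorm_le (dnorm_nonneg _) fun x => ?_
          rw [neg_apply, norm_neg]; exact le_dnorm a x
        · refine dnorm_le (dnorm_nonneg _) fun x => ?_
          have := le_dnorm (-a) x
          rwa [neg_apply, norm_neg] at this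
      eq_zero_of_map_eq_zero' := fun a h => by
        apply ext'
        intro x
        have := le_dnorm a x
        rw [h, zero_mul] at this
        rw [zero_apply]
        exact norm_le_zero_iff.1 this }

lemma norm_def (χ : Dual G) : ‖χ‖ = sInf {M : ℝ | 0 < M ∧ ∀ x : G, ‖χ x‖ ≤ M * ‖x‖} := rfl

lemma le_norm (χ : Dual G) (x : G) : ‖χ x‖ ≤ ‖χ‖ * ‖x‖ := le_dnorm χ x

lemma norm_le {χ : Dual G} {M : ℝ} (hM : 0 ≤ M) (h : ∀ x, ‖χ x‖ ≤ M * ‖x‖) : ‖χ‖ ≤ M :=
  dnorm_le hM h

lemma norm_le_of_ball {χ : Dual G} {r : ℝ} (hr : 0 < r)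
    (h : ∀ x : G, ‖x‖ < r → ‖χ x‖ < 1 / 4) : ‖χ‖ ≤ 1 / (2 * r) :=
  norm_le (by positivity) (bound_of_ball hr h)

/-- evaluation at `x` -/
def ev (x : G) : Dual (Dual G) :=
  ⟨{ toFun := fun χ => χ x, map_zero' := rfl, map_add' := fun _ _ => rfl }, by
    refine (LipschitzWith.of_dist_le_mul (K := ⟨‖x‖, norm_nonneg x⟩) fun a b => ?_).continuous
    rw [dist_eq_norm, dist_eq_norm]
    have := le_norm (a - b) x
    rw [sub_apply] at this
    rw [mul_comm]
    exact this⟩

lemma ev_apply (x : G) (χ : Dual G) : ev x χ = χ x := rfl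

lemma norm_ev_le (x : G) : ‖ev x‖ ≤ ‖x‖ :=
  norm_le (norm_nonneg x) fun χ => by rw [ev_apply, mul_comm]; exact le_norm χ x

end basic


/-! ### compactness -/

section cpt

variable {H : Type u} [NormedAddCommGroup H]

/-- the ball of radius `N` of the dual, as a set of functions -/
def K (H : Type u) [NormedAddCommGroup H] (N : ℝ) : Set (H → UnitAddCircle) :=
  {f | (∀ a b, f (a + b) = f a + f b) ∧ ∀ a, ‖f a‖ ≤ N * ‖a‖}

lemma isClosed_K (N : ℝ) : IsClosed (K H N) := by
  have h1 : IsClosed {f : H → UnitAddCircle | ∀ a b, f (a + b) = f a + f b} := by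
    simp only [Set.ofPred_forall]
    refine isClosed_iInter fun a => isClosed_iInter fun b => ?_
    exact isClosed_eq (continuous_apply _) ((continuous_apply a).add (continuous_apply b))
  have h2 : IsClosed {f : H → UnitAddCircle | ∀ a, ‖f a‖ ≤ N * ‖a‖} := by
    simp only [Set.ofPred_forall]
    refine isClosed_iInter fun a => ?_
    exact isClosed_le (continuous_apply a).norm continuous_const
  exact h1.inter h2

/-- the character given by a member of `K` -/
def toDual {N : ℝ} {f : H → UnitAddCircle} (hN : 0 ≤ N) (hf : f ∈ K H N) : Dual H :=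
  ⟨AddMonoidHom.mk' f hf.1, by
    refine (LipschitzWith.of_dist_le_mul (K := ⟨N, hN⟩) fun a b => ?_).continuous
    rw [dist_eq_norm, dist_eq_norm]
    have := hf.2 (a - b)
    have h2 : f (a - b) = f a - f b := (AddMonoidHom.mk' f hf.1).map_sub a b
    rw [h2] at this
    exact this⟩

lemma toDual_apply {N : ℝ} {f : H → UnitAddCircle} (hN : 0 ≤ N) (hf : f ∈ K H N) (a : H) :
    toDual hN hf a = f a := rfl

lemma mem_K {N : ℝ} {φ : Dual H} (h : ‖φ‖ ≤ N) : (fun a => φ a) ∈ K H N :=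
  ⟨fun a b => map_add' φ a b, fun a => (le_norm φ a).trans (by gcongr)⟩

/-- `S` separates the points of the dual: then a finite part of `S` controls `h`. -/
lemma control {ι : Type u} {s : ι → H} (hs : ∀ φ : Dual H, (∀ i, φ (s i) = 0) → φ = 0)
    (h : H) {N : ℝ} (hN : 0 ≤ N) {ε : ℝ} (hε : 0 < ε) :
    ∃ u : Finset (ι × ℕ), ∀ φ : Dual H, ‖φ‖ ≤ N →
      (∀ p ∈ u, ‖φ (s p.1)‖ ≤ 1 / ((p.2 : ℝ) + 1)) → ‖φ h‖ < ε := by
  have hcl : IsClosed {f : H → UnitAddCircle | ε ≤ ‖f h‖} :=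
    isClosed_le continuous_const (continuous_apply h).norm
  have hcp : IsCompact (K H N ∩ {f : H → UnitAddCircle | ε ≤ ‖f h‖}) :=
    ((isClosed_K N).inter hcl).isCompact
  obtain ⟨u, hu⟩ := hcp.elim_finite_subfamily_closed
    (fun p : ι × ℕ => {f : H → UnitAddCircle | ‖f (s p.1)‖ ≤ 1 / ((p.2 : ℝ) + 1)})
    (fun p => isClosed_le (continuous_apply _).norm continuous_const) (by
      rw [Set.eq_empty_iff_forall_notMem]
      rintro f ⟨⟨hf1, hf2⟩, hf3⟩
      have h0 : toDual hN hf1 = 0 := by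
        apply hs
        intro i
        rw [toDual_apply]
        by_contra hne
        have hpos : 0 < ‖f (s i)‖ := norm_pos_iff.2 hne
        obtain ⟨n, hn⟩ := exists_nat_one_div_lt hpos
        have := mem_iInter.1 hf3 (i, n)
        exact absurd (lt_of_lt_of_le hn this) (lt_irrefl _)
      have h1 : f h = 0 := by
        rw [← toDual_apply hN hf1, h0, zero_apply]
      have h2 : ε ≤ ‖f h‖ := hf2
      rw [h1, norm_zero] at h2
      exact absurd hε (not_lt.2 h2))
  refine ⟨u, fun φ hφ hp => ?_⟩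
  by_contra hcon
  have : (fun a => φ a) ∈ (K H N ∩ {f : H → UnitAddCircle | ε ≤ ‖f h‖}) ∩
      ⋂ i ∈ u, {f : H → UnitAddCircle | ‖f (s i.1)‖ ≤ 1 / ((i.2 : ℝ) + 1)} :=
    ⟨⟨mem_K hφ, not_lt.1 hcon⟩, mem_iInter₂.2 fun i hi => hp i hi⟩
  rw [hu] at this
  exact this

end cpt

/-- finite discretisation of the circle -/
lemma exists_disc {δ : ℝ} (hδ : 0 < δ) : ∃ (k : ℕ) (r : UnitAddCircle → Fin k),
    ∀ x y, r x = r y → ‖x - y‖ < δ := by
  obtain ⟨t, -, ht, hcov⟩ := (isCompact_univ (X := UnitAddCircle)).finite_cover_balls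
    (half_pos hδ)
  have hc : ∀ x, ∃ y : t, x ∈ Metric.ball (y : UnitAddCircle) (δ / 2) := by
    intro x
    obtain ⟨y, hy, hxy⟩ := mem_iUnion₂.1 (hcov (mem_univ x))
    exact ⟨⟨y, hy⟩, hxy⟩
  choose c hc using hc
  have : Finite t := ht
  obtain ⟨k, ⟨e⟩⟩ := Finite.exists_equiv_fin t
  refine ⟨k, fun x => e (c x), fun x y hxy => ?_⟩
  have h1 : c x = c y := e.injective hxy
  have h2 := hc x
  have h3 := hc y
  rw [← h1] at h3
  rw [← dist_eq_norm]
  calc dist x y ≤ dist x (c x) + dist y (c x) := dist_triangle_right _ _ _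
    _ < δ / 2 + δ / 2 := add_lt_add h2 h3
    _ = δ := by ring

/-! ### the infinite case -/

section inf

variable {G : Type u} [NormedAddCommGroup G]

/-- from a dense family in the bidual we get a separating family in the dual -/
lemma exists_sep {H : Type u} [NormedAddCommGroup H] {ι : Type u} {d : ι → Dual H}
    (hd : DenseRange d) : ∃ s : ι → H, ∀ φ : Dual H, (∀ i, φ (s i) = 0) → φ = 0 := by
  have hex : ∀ i, ∃ h : H, d i ≠ 0 → ‖d i‖ / 2 * ‖h‖ < ‖d i h‖ := by
    intro i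
    by_cases h0 : d i = 0
    · exact ⟨0, fun h => absurd h0 h⟩
    · by_contra hcon
      push Not at hcon
      have h1 : ‖d i‖ ≤ ‖d i‖ / 2 := norm_le (by positivity) fun x => (hcon x).2
      have h2 : 0 < ‖d i‖ := norm_pos_iff.2 h0
      linarith
  choose s hs using hex
  refine ⟨s, fun φ hφ => ?_⟩
  by_contra hne
  have hpos : 0 < ‖φ‖ := norm_pos_iff.2 hne
  obtain ⟨i, hi⟩ := hd.exists_dist_lt φ (show 0 < ‖φ‖ / 4 by positivity)
  rw [dist_eq_norm] at hi
  have h1 : ‖φ‖ ≤ ‖φ - d i‖ + ‖d i‖ := by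
    have := norm_add_le (φ - d i) (d i)
    rwa [sub_add_cancel] at this
  have h2 : d i ≠ 0 := by
    intro h0
    rw [h0, norm_zero, sub_zero] at h1
    rw [h0, sub_zero] at hi
    linarith
  have h3 := hs i h2
  have h4 := le_norm (φ - d i) (s i)
  rw [sub_apply, hφ i, zero_sub, norm_neg] at h4
  have h5 : ‖φ - d i‖ * ‖s i‖ ≤ ‖d i‖ / 2 * ‖s i‖ := by
    apply mul_le_mul_of_nonneg_right _ (norm_nonneg _)
    linarith
  linarith


/-- a member of the ball of the bidual in a given cell, if there is one -/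
noncomputable def pick {ι : Type u} (s : ι → Dual G) (N : ℝ) {k : ℕ → ℕ}
    (r : ∀ m, UnitAddCircle → Fin (k m)) (v : Finset (ι × ℕ))
    (cell : ∀ i : v, Fin (k i.1.2)) : Dual (Dual G) :=
  open Classical in
  if h : ∃ φ : Dual (Dual G), ‖φ‖ ≤ N ∧ ∀ i : v, r i.1.2 (φ (s i.1.1)) = cell i then
    Classical.choose h else 0

lemma close_of_data {ι : Type u} {s : ι → Dual G} {N : ℝ} (hN : 0 < N) {k : ℕ → ℕ}
    {r : ∀ m, UnitAddCircle → Fin (k m)}
    (hr : ∀ m x y, r m x = r m y → ‖x - y‖ < 1 / ((m : ℝ) + 1))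
    {k' : ℕ} {r' : UnitAddCircle → Fin k'} (hr' : ∀ x y, r' x = r' y → ‖x - y‖ < 1 / 12)
    {v : Finset (ι × ℕ)} {h₁ h₂ : Dual G}
    (c₁ : ∀ φ : Dual (Dual G), ‖φ‖ ≤ 2 * N →
      (∀ p ∈ v, ‖φ (s p.1)‖ ≤ 1 / ((p.2 : ℝ) + 1)) → ‖φ h₁‖ < 1 / 12)
    (c₂ : ∀ φ : Dual (Dual G), ‖φ‖ ≤ 2 * N →
      (∀ p ∈ v, ‖φ (s p.1)‖ ≤ 1 / ((p.2 : ℝ) + 1)) → ‖φ h₂‖ < 1 / 12)
    (hd : ∀ cell : (∀ i : v, Fin (k i.1.2)),
      r' (pick s N r v cell h₁) = r' (pick s N r v cell h₂)) :
    ‖h₁ - h₂‖ ≤ 1 / (2 * N) := by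
  refine norm_le_of_ball hN fun x hx => ?_
  set φ : Dual (Dual G) := ev x with hφ
  have hφN : ‖φ‖ ≤ N := (norm_ev_le x).trans hx.le
  let cell : ∀ i : v, Fin (k i.1.2) := fun i => r i.1.2 (φ (s i.1.1))
  have hex : ∃ φ : Dual (Dual G), ‖φ‖ ≤ N ∧ ∀ i : v, r i.1.2 (φ (s i.1.1)) = cell i :=
    ⟨φ, hφN, fun i => rfl⟩
  set ψ := pick s N r v cell with hψ
  have hψ' : ‖ψ‖ ≤ N ∧ ∀ i : v, r i.1.2 (ψ (s i.1.1)) = cell i := by
    rw [hψ]
    unfold pick
    rw [dif_pos hex]
    exact Classical.choose_spec hex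
  have h1 : ‖φ - ψ‖ ≤ 2 * N := by
    have := norm_sub_le φ ψ
    linarith [hψ'.1]
  have h2 : ∀ p ∈ v, ‖(φ - ψ) (s p.1)‖ ≤ 1 / ((p.2 : ℝ) + 1) := by
    intro p hp
    rw [sub_apply]
    exact (hr p.2 _ _ (hψ'.2 ⟨p, hp⟩).symm).le
  have e1 := c₁ _ h1 h2
  have e2 := c₂ _ h1 h2
  have e3 := hr' _ _ (hd cell)
  rw [← hψ] at e3
  rw [sub_apply] at e1 e2
  have e4 : (h₁ - h₂) x = (φ h₁ - ψ h₁) + (ψ h₁ - ψ h₂) - (φ h₂ - ψ h₂) := by
    rw [sub_apply, hφ, ev_apply, ev_apply]
    abel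
  rw [e4]
  calc ‖(φ h₁ - ψ h₁) + (ψ h₁ - ψ h₂) - (φ h₂ - ψ h₂)‖
      ≤ ‖(φ h₁ - ψ h₁) + (ψ h₁ - ψ h₂)‖ + ‖φ h₂ - ψ h₂‖ := norm_sub_le _ _
    _ ≤ ‖φ h₁ - ψ h₁‖ + ‖ψ h₁ - ψ h₂‖ + ‖φ h₂ - ψ h₂‖ := by
        gcongr; exact norm_add_le _ _
    _ < 1 / 4 := by linarith

lemma mk_iUnion_nat_le {X : Type u} {κ : Cardinal.{u}} (hκ : ℵ₀ ≤ κ) {R : ℕ → Set X}
    (hR : ∀ n, #(R n) ≤ κ) : #(⋃ n, R n) ≤ κ := by
  have h0 : (⋃ n, R n) = ⋃ n : ULift.{u} ℕ, R n.down :=
    (Equiv.ulift.{u}.surjective.iUnion_comp R).symm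
  rw [h0]
  refine Cardinal.mk_iUnion_le_sum_mk.trans ?_
  refine (Cardinal.sum_le_sum _ (fun _ => κ) fun (n : ULift.{u} ℕ) => hR n.down).trans ?_
  rw [Cardinal.sum_const']
  rw [Cardinal.mk_uLift, Cardinal.mk_nat, Cardinal.lift_aleph0, Cardinal.aleph0_mul_eq hκ]

/-- density of the dual is bounded by the size of a separating family -/
lemma exists_dense {ι : Type u} (hι : ℵ₀ ≤ #ι) {s : ι → Dual G}
    (hs : ∀ φ : Dual (Dual G), (∀ i, φ (s i) = 0) → φ = 0) :
    ∃ R : Set (Dual G), Dense R ∧ #R ≤ #ι := by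
  choose k r hr using fun m : ℕ => exists_disc (show (0 : ℝ) < 1 / ((m : ℝ) + 1) by positivity)
  obtain ⟨k', r', hr'⟩ := exists_disc (show (0 : ℝ) < 1 / 12 by norm_num)
  -- for each `n`, a set of size at most `#ι`
  have key : ∀ n : ℕ, ∃ R : Set (Dual G), #R ≤ #ι ∧ ∀ h : Dual G, ∃ g ∈ R,
      ‖h - g‖ ≤ 1 / (2 * ((n : ℝ) + 1)) := by
    intro n
    have hN : (0 : ℝ) < (n : ℝ) + 1 := by positivity
    choose v hv using fun h : Dual G => control hs h (show (0 : ℝ) ≤ 2 * ((n : ℝ) + 1) by positivity)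
      (show (0 : ℝ) < 1 / 12 by norm_num)
    let T : Type u := Σ w : Finset (ι × ℕ), ((∀ i : w, Fin (k i.1.2)) → Fin k')
    let D : Dual G → T := fun h => ⟨v h, fun cell => r' (pick s ((n : ℝ) + 1) r (v h) cell h)⟩
    have hT : #T ≤ #ι := by
      have h1 : #T ≤ Cardinal.sum fun _ : Finset (ι × ℕ) => ℵ₀ := by
        rw [Cardinal.mk_sigma]
        refine Cardinal.sum_le_sum _ _ fun w => ?_
        exact (Cardinal.lt_aleph0_of_finite _).le
      refine h1.trans ?_
      have hinf : Infinite ι := Cardinal.infinite_iff.2 hι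
      rw [Cardinal.sum_const, Cardinal.lift_aleph0, Cardinal.lift_id,
        Cardinal.mk_finset_of_infinite, Cardinal.mk_prod]
      simp only [Cardinal.mk_eq_aleph0, Cardinal.lift_aleph0, Cardinal.lift_uzero]
      rw [Cardinal.mul_aleph0_eq hι, Cardinal.mul_aleph0_eq hι]
    have hclose : ∀ h₁ h₂, D h₁ = D h₂ → ‖h₁ - h₂‖ ≤ 1 / (2 * ((n : ℝ) + 1)) := by
      intro h₁ h₂ hD
      have hv' : v h₁ = v h₂ := congrArg Sigma.fst hD
      have hc : ∀ cell : (∀ i : v h₁, Fin (k i.1.2)),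
          r' (pick s ((n : ℝ) + 1) r (v h₁) cell h₁) =
          r' (pick s ((n : ℝ) + 1) r (v h₁) cell h₂) := by
        have h3 : D h₂ = ⟨v h₁, fun cell => r' (pick s ((n : ℝ) + 1) r (v h₁) cell h₂)⟩ := by
          show (⟨v h₂, fun cell => r' (pick s ((n : ℝ) + 1) r (v h₂) cell h₂)⟩ : T) = _
          rw [← hv']
        rw [h3] at hD
        have h4 := eq_of_heq (Sigma.mk.inj_iff.1 hD).2
        intro cell
        exact congrFun h4 cell
      refine close_of_data hN hr hr' (hv h₁) ?_ hc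
      rw [hv']
      exact hv h₂
    refine ⟨range fun t : range D => Classical.choose t.2, ?_, fun h => ?_⟩
    · refine Cardinal.mk_range_le.trans ((Cardinal.mk_set_le _).trans hT)
    · refine ⟨_, ⟨⟨D h, h, rfl⟩, rfl⟩, ?_⟩
      exact hclose _ _ (Classical.choose_spec (⟨h, rfl⟩ : ∃ y, D y = D h)).symm
  choose R hR1 hR2 using key
  refine ⟨⋃ n, R n, ?_, ?_⟩
  · rw [Metric.dense_iff]
    intro h ε hε
    obtain ⟨n, hn⟩ := exists_nat_one_div_lt hε
    obtain ⟨g, hg, hg'⟩ := hR2 n h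
    refine ⟨g, ?_, mem_iUnion.2 ⟨n, hg⟩⟩
    rw [Metric.mem_ball, dist_comm, dist_eq_norm]
    refine hg'.trans_lt (lt_of_le_of_lt ?_ hn)
    apply one_div_le_one_div_of_le (by positivity)
    have : (0 : ℝ) ≤ n := Nat.cast_nonneg n
    linarith
  · exact mk_iUnion_nat_le hι hR1

end inf

/-! ### weights -/

/-- the weight is attained -/
lemma weight_spec (X : Type u) [TopologicalSpace X] :
    ∃ B : Set (Set X), IsTopologicalBasis B ∧ #B = weight X :=
  csInf_mem (s := {c : Cardinal.{u} | ∃ B : Set (Set X), IsTopologicalBasis B ∧ #B = c})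
    ⟨_, {U : Set X | IsOpen U}, isTopologicalBasis_opens, rfl⟩

lemma weight_le {X : Type u} [TopologicalSpace X] {B : Set (Set X)} (hB : IsTopologicalBasis B) :
    weight X ≤ #B :=
  csInf_le' ⟨B, hB, rfl⟩

/-- a metric space with a dense set of size at most the infinite cardinal `κ` has weight at most
`κ` -/
lemma weight_le_of_dense {X : Type u} [PseudoMetricSpace X] {R : Set X} (hR : Dense R)
    {κ : Cardinal.{u}} (hκ : ℵ₀ ≤ κ) (h : #R ≤ κ) : weight X ≤ κ := by
  let B : Set (Set X) := ⋃ n : ℕ, range fun x : R => Metric.ball (x : X) (1 / ((n : ℝ) + 1))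
  have hB : IsTopologicalBasis B := by
    apply isTopologicalBasis_of_isOpen_of_nhds
    · intro U hU
      obtain ⟨n, hn⟩ := mem_iUnion.1 hU
      obtain ⟨x, rfl⟩ := hn
      exact Metric.isOpen_ball
    · intro a U ha hU
      obtain ⟨ε, hε, hεU⟩ := Metric.isOpen_iff.1 hU a ha
      obtain ⟨n, hn⟩ := exists_nat_one_div_lt (half_pos hε)
      have hpos : (0 : ℝ) < 1 / ((n : ℝ) + 1) := by positivity
      obtain ⟨x, hx, hxR⟩ := Metric.dense_iff.1 hR a _ hpos
      refine ⟨_, mem_iUnion.2 ⟨n, ⟨⟨x, hxR⟩, rfl⟩⟩, ?_, ?_⟩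
      · rw [Metric.mem_ball, dist_comm]; exact hx
      · intro y hy
        apply hεU
        rw [Metric.mem_ball] at hx hy ⊢
        calc dist y a ≤ dist y x + dist x a := dist_triangle _ _ _
          _ < ε / 2 + ε / 2 := add_lt_add (hy.trans hn) (hx.trans hn)
          _ = ε := by ring
  refine (weight_le hB).trans (mk_iUnion_nat_le hκ fun n => Cardinal.mk_range_le.trans h)

/-- the infinite case -/
lemma main_infinite (G : Type u) [NormedAddCommGroup G] (h : ℵ₀ ≤ weight (Dual (Dual G))) :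
    weight (Dual G) ≤ weight (Dual (Dual G)) := by
  obtain ⟨B, hB, hBc⟩ := weight_spec (Dual (Dual G))
  classical
  let d : B → Dual (Dual G) := fun U => if hU : (U : Set (Dual (Dual G))).Nonempty then hU.some else 0
  have hd : DenseRange d := by
    rw [DenseRange, hB.dense_iff]
    intro U hU hne
    refine ⟨hne.some, hne.some_mem, ⟨⟨U, hU⟩, ?_⟩⟩
    show (if hU : (U : Set (Dual (Dual G))).Nonempty then hU.some else 0) = _
    rw [dif_pos hne]
  obtain ⟨s, hs⟩ := exists_sep hd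
  obtain ⟨R, hR, hRc⟩ := exists_dense (G := G) (ι := B) (by rw [hBc]; exact h) hs
  rw [← hBc]
  exact weight_le_of_dense hR (by rw [hBc]; exact h) hRc

/-! ### the finite case -/

lemma finite_of_weight {X : Type u} [TopologicalSpace X] [T1Space X] (h : weight X < ℵ₀) :
    Finite X ∧ #X ≤ weight X := by
  obtain ⟨B, hB, hBc⟩ := weight_spec X
  have hBf : B.Finite := Cardinal.lt_aleph0_iff_set_finite.1 (by rw [hBc]; exact h)
  have hsing : ∀ x : X, ({x} : Set X) ∈ B := by
    intro x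
    have hIf : {b ∈ B | x ∈ b}.Finite := hBf.subset fun b hb => hb.1
    have hIo : IsOpen (⋂₀ {b ∈ B | x ∈ b}) := hIf.isOpen_sInter fun b hb => hB.isOpen hb.1
    have hxI : x ∈ ⋂₀ {b ∈ B | x ∈ b} := fun b hb => hb.2
    obtain ⟨b, hb, hxb, hbI⟩ := hB.exists_subset_of_mem_open hxI hIo
    have hbx : b = {x} := by
      apply Subset.antisymm
      · intro y hy
        by_contra hne
        have hne' : x ∈ ({y} : Set X)ᶜ := fun he => hne he.symm
        obtain ⟨c, hc, hxc, hcy⟩ := hB.exists_subset_of_mem_open hne' isOpen_compl_singleton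
        exact hcy (hbI hy c ⟨hc, hxc⟩) rfl
      · rintro y rfl
        exact hxb
    rw [← hbx]
    exact hb
  have hle : #X ≤ weight X := by
    rw [← hBc]
    refine Cardinal.mk_le_of_injective (f := fun x => (⟨{x}, hsing x⟩ : B)) ?_
    intro x y hxy
    exact Set.singleton_injective (congrArg Subtype.val hxy)
  exact ⟨Cardinal.lt_aleph0_iff_finite.1 (hle.trans_lt h), hle⟩

lemma finite_dual (G : Type u) [NormedAddCommGroup G] [Finite (Dual (Dual G))] :
    Finite (Dual G) := by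
  set n := Nat.card (Dual (Dual G)) with hn
  have hn0 : 0 < n := Nat.card_pos
  have hfin : Finite {t : UnitAddCircle // n • t = 0} :=
    (AddCircle.finite_torsion (1 : ℝ) hn0).to_subtype
  have htor : ∀ (χ : Dual G) (φ : Dual (Dual G)), n • φ χ = 0 := by
    intro χ φ
    have h1 : n • φ = 0 := card_nsmul_eq_zero'
    rw [← nsmul_apply, h1]; rfl
  refine Finite.of_injective
    (fun (χ : Dual G) (φ : Dual (Dual G)) => (⟨φ χ, htor χ φ⟩ : {t : UnitAddCircle // n • t = 0}))
    ?_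
  intro a b hab
  apply ext'
  intro x
  exact congrArg Subtype.val (congrFun hab (ev x))

lemma card_dual_le (A : Type u) [NormedAddCommGroup A] [Finite A] : #A ≤ #(Dual A) := by
  classical
  have := Fintype.ofFinite A
  have h1 : Fintype.card (AddChar A ℂ) = Fintype.card A := AddChar.card_eq
  have h2 : #A = #(AddChar A ℂ) := by
    rw [Cardinal.mk_fintype, Cardinal.mk_fintype, h1]
  have hT : (1 : ℝ) ≠ 0 := one_ne_zero
  let e := AddCircle.homeomorphCircle hT
  have he : ∀ x y, e (x + y) = e x * e y := by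
    intro x y
    rw [AddCircle.homeomorphCircle_apply, AddCircle.homeomorphCircle_apply,
      AddCircle.homeomorphCircle_apply, AddCircle.toCircle_add]
  have he' : ∀ x y, e.symm (x * y) = e.symm x + e.symm y := by
    intro x y
    apply e.injective
    rw [he, e.apply_symm_apply, e.apply_symm_apply, e.apply_symm_apply]
  let F : AddChar A ℂ → Dual A := fun ψ =>
    ⟨AddMonoidHom.mk' (fun a => e.symm (AddChar.circleEquivComplex.symm ψ a)) (fun a b => by
      rw [AddChar.map_add_eq_mul, he']), continuous_of_discreteTopology⟩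
  rw [h2]
  refine Cardinal.mk_le_of_injective (f := F) ?_
  intro a b hab
  apply AddChar.circleEquivComplex.symm.injective
  apply DFunLike.ext
  intro x
  apply e.symm.injective
  exact DFunLike.congr_fun (congrArg Subtype.val hab) x

/-- the finite case -/
lemma main_finite (G : Type u) [NormedAddCommGroup G] (h : weight (Dual (Dual G)) < ℵ₀) :
    weight (Dual G) ≤ weight (Dual (Dual G)) := by
  obtain ⟨hf, hc⟩ := finite_of_weight h
  have hf' : Finite (Dual G) := finite_dual G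
  refine le_trans ?_ ((card_dual_le (Dual G)).trans hc)
  refine (weight_le (isTopologicalBasis_singletons (Dual G))).trans ?_
  have : {s : Set (Dual G) | ∃ x, s = {x}} = range fun x : Dual G => ({x} : Set (Dual G)) := by
    ext s; constructor
    · rintro ⟨x, rfl⟩; exact ⟨x, rfl⟩
    · rintro ⟨x, rfl⟩; exact ⟨x, rfl⟩
  rw [this]
  exact Cardinal.mk_range_le

/-- **Theorem.**  For every Abelian group `G` with a norm, `w(G'') ≥ w(G')`. -/
theorem result (G : Type u) [NormedAddCommGroup G] :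
    weight (Dual G) ≤ weight (Dual (Dual G)) := by
  rcases lt_or_ge (weight (Dual (Dual G))) ℵ₀ with h | h
  · exact main_finite G h
  · exact main_infinite G h

end Pool.Agent.Results.MP_e4445d_al.BidualWeight
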